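import Pool.Agent.Lib.MP_05d620_an.Defs
import Pool.Agent.Lib.MP_05d620_an.Main

/-!
# MP_05d620_an: octahedrality does not pass to vector-valued Lipschitz-free spaces

There are a countable pointed metric space `M` (all nonzero distances equal to one) and a
four-dimensional Banach space `X` such that the Lipschitz-free space of `M` has an octahedral norm,
while its completed projective tensor product with `X` does not.
-/

namespace Pool.Agent.Results.MP_05d620_an.NotOctahedral

open Pool.Agent.Lib.MP_05d620_an
open scoped TensorProduct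

theorem result :
    ∃ (M : Type) (_ : MetricSpace M) (o : M)
      (X : Type) (_ : NormedAddCommGroup X) (_ : NormedSpace ℝ X)
      (F : Type) (_ : NormedAddCommGroup F) (_ : NormedSpace ℝ F) (δ : M → F)
      (Z : Type) (_ : NormedAddCommGroup Z) (_ : NormedSpace ℝ Z) (T : F ⊗[ℝ] X →ₗ[ℝ] Z),
      Countable M ∧ (∀ x y : M, x ≠ y → dist x y = 1) ∧
      CompleteSpace X ∧ Module.finrank ℝ X = 4 ∧
      IsLipschitzFree M o F δ ∧ IsProjectiveTensorProduct F X Z T ∧
      HasOctahedralNorm F ∧ ¬ HasOctahedralNorm Z := by
  have hM : ∀ x y : Pts, x ≠ y → dist x y = 1 := fun x y h => dist_Pts h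
  refine ⟨Pts, inferInstance, (0 : ℕ), XX, inferInstance, inferInstance,
    LipFree Pts (0 : ℕ), inferInstance, inferInstance, deltaF _,
    ProjTensorProduct (LipFree Pts (0 : ℕ)) XX, inferInstance, inferInstance, toProj _ _,
    inferInstance, hM, inferInstance, finrank_XX, isLipschitzFree_lipFree,
    isProjectiveTensorProduct_proj _ _, octahedral_lipFree hM, ?_⟩
  exact not_octahedral hM (fun i => ((i : ℕ) : Pts)) Fin.val_injective rfl

end Pool.Agent.Results.MP_05d620_an.NotOctahedral
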